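import Mathlib

set_option autoImplicit false

/-!
# There is no universal countable right-orderable group

For every set `S` of positive integers there is a two-generator orderable group with generators
`t`, `x` such that, for `k ≥ 1`, the elements `x` and `t⁻ᵏ x tᵏ` commute if and only if `k ∉ S`.
A countable group contains only countably many pairs of elements, so it cannot contain all these
groups.
-/

namespace Pool.Agent.Results.MP_49314d_al.NoUniversal

universe u

/-- `G` carries a right order: a total order with `x ≤ y → x z ≤ y z`. -/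
def RightOrderable (G : Type*) [Group G] : Prop :=
  ∃ r : LinearOrder G, ∀ x y z : G, r.le x y → r.le (x * z) (y * z)

/-- `G` carries a total order invariant under multiplication on both sides. -/
def BiOrderable (G : Type*) [Group G] : Prop :=
  ∃ r : LinearOrder G, ∀ x y z : G, r.le x y → r.le (x * z) (y * z) ∧ r.le (z * x) (z * y)

/-- the free abelian group on the integers -/
abbrev V : Type := ℤ →₀ ℤ

/-- the shift by `m` -/
noncomputable def τ (m : ℤ) : V ≃ₗ[ℤ] V := Finsupp.domLCongr (Equiv.addRight m)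

lemma τ_single (m i a : ℤ) : τ m (Finsupp.single i a) = Finsupp.single (i + m) a := by
  simp [τ]

lemma τ_apply (m : ℤ) (u : V) (i : ℤ) : τ m u i = u (i - m) := by
  simp [τ, Finsupp.domLCongr_apply, sub_eq_add_neg]

lemma τ_τ (m n : ℤ) (u : V) : τ m (τ n u) = τ (n + m) u := by
  ext i
  simp only [τ_apply]
  congr 1
  ring

lemma τ_zero (u : V) : τ 0 u = u := by
  ext i
  simp [τ_apply]

/-- the bilinear form `β (x_i) (x_j) = w (j - i)` -/
noncomputable def β (w : ℤ → ℤ) : V →ₗ[ℤ] V →ₗ[ℤ] ℤ :=
  Finsupp.linearCombination ℤ (fun i : ℤ =>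
    (Finsupp.linearCombination ℤ (fun j : ℤ => w (j - i)) : V →ₗ[ℤ] ℤ))

lemma β_single (w : ℤ → ℤ) (i j a b : ℤ) :
    β w (Finsupp.single i a) (Finsupp.single j b) = a * (b * w (j - i)) := by
  simp [β]

lemma β_τ (w : ℤ → ℤ) (m : ℤ) (u v : V) : β w (τ m u) (τ m v) = β w u v := by
  have h : ((β w).compl₁₂ (τ m : V →ₗ[ℤ] V) (τ m : V →ₗ[ℤ] V)) = β w := by
    refine Finsupp.lhom_ext fun i a => Finsupp.lhom_ext fun j b => ?_
    simp only [LinearMap.compl₁₂_apply, LinearEquiv.coe_coe, τ_single, β_single]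
    congr 3
    ring
  exact LinearMap.congr_fun (LinearMap.congr_fun h u) v

/-- the group `Γ_w = ⟨t⟩ ⋉ N`, an element `t ^ n * x ^ u * z ^ c` being stored as `(n, u, c)` -/
@[ext] structure Γ (w : ℤ → ℤ) where
  /-- exponent of `t` -/
  n : ℤ
  /-- exponents of the `x_i` -/
  u : V
  /-- exponent of the central element -/
  c : ℤ

variable {w : ℤ → ℤ}

noncomputable instance : Mul (Γ w) :=
  ⟨fun x y => ⟨x.n + y.n, τ y.n x.u + y.u, x.c + y.c + β w (τ y.n x.u) y.u⟩⟩

instance : One (Γ w) := ⟨⟨0, 0, 0⟩⟩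

noncomputable instance : Inv (Γ w) := ⟨fun x => ⟨-x.n, -τ (-x.n) x.u, -x.c + β w x.u x.u⟩⟩

lemma mul_def (x y : Γ w) :
    x * y = ⟨x.n + y.n, τ y.n x.u + y.u, x.c + y.c + β w (τ y.n x.u) y.u⟩ := rfl

lemma one_def : (1 : Γ w) = ⟨0, 0, 0⟩ := rfl

lemma inv_def (x : Γ w) : x⁻¹ = ⟨-x.n, -τ (-x.n) x.u, -x.c + β w x.u x.u⟩ := rfl

noncomputable instance : Group (Γ w) :=
  Group.ofLeftAxioms
    (by
      intro x y z
      simp only [mul_def, map_add, τ_τ, LinearMap.add_apply]
      ext1
      · exact add_assoc _ _ _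
      · exact add_assoc _ _ _
      · have h : β w (τ (y.n + z.n) x.u) (τ z.n y.u) = β w (τ y.n x.u) y.u := by
          rw [← τ_τ, β_τ]
        simp only [h]
        ring)
    (by
      intro x
      simp [mul_def, one_def])
    (by
      intro x
      simp only [mul_def, inv_def, one_def, map_neg, τ_τ, LinearMap.neg_apply]
      ext1
      · simp
      · simp [τ_zero]
      · simp [τ_zero])

/-- the positive cone -/
def Pos (x : Γ w) : Prop :=
  0 < x.n ∨ (x.n = 0 ∧ ((0 : Lex V) < toLex x.u ∨ (x.u = 0 ∧ 0 < x.c)))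

lemma toLex_add' (a b : V) : toLex (a + b) = toLex a + toLex b := rfl

lemma Pos.mul {x y : Γ w} (hx : Pos x) (hy : Pos y) : Pos (x * y) := by
  rcases hx with hx | ⟨hx, hx'⟩
  · left
    rcases hy with hy | ⟨hy, -⟩
    · exact add_pos hx hy
    · change 0 < x.n + y.n
      rw [hy, add_zero]
      exact hx
  · rcases hy with hy | ⟨hy, hy'⟩
    · left
      change 0 < x.n + y.n
      rw [hx, zero_add]
      exact hy
    · right
      refine ⟨by change x.n + y.n = 0; rw [hx, hy, add_zero], ?_⟩
      simp only [mul_def, hy, τ_zero]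
      rcases hx' with hx' | ⟨hx1, hx2⟩
      · left
        rw [toLex_add']
        rcases hy' with hy' | ⟨hy1, -⟩
        · exact add_pos hx' hy'
        · rw [hy1]
          simpa using hx'
      · rcases hy' with hy' | ⟨hy1, hy2⟩
        · left
          rw [hx1, zero_add]
          exact hy'
        · right
          refine ⟨by rw [hx1, hy1, add_zero], ?_⟩
          rw [hx1]
          simp only [map_zero, LinearMap.zero_apply, add_zero]
          exact add_pos hx2 hy2

lemma not_pos_one : ¬ Pos (1 : Γ w) := by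
  rintro (h | ⟨-, h | ⟨-, h⟩⟩)
  · exact lt_irrefl _ h
  · exact lt_irrefl _ h
  · exact lt_irrefl _ h

lemma pos_or (x : Γ w) (hx : x ≠ 1) : Pos x ∨ Pos x⁻¹ := by
  rcases lt_trichotomy x.n 0 with h | h | h
  · right; left
    change 0 < -x.n
    linarith
  · rcases lt_trichotomy (toLex x.u) (0 : Lex V) with h1 | h1 | h1
    · right; right
      refine ⟨by change -x.n = 0; rw [h, neg_zero], Or.inl ?_⟩
      change (0 : Lex V) < toLex (-τ (-x.n) x.u)
      rw [h, neg_zero, τ_zero]
      exact neg_pos.2 h1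
    · have h1' : x.u = 0 := h1
      rcases lt_trichotomy x.c 0 with h2 | h2 | h2
      · right; right
        refine ⟨by change -x.n = 0; rw [h, neg_zero], Or.inr ⟨?_, ?_⟩⟩
        · change -τ (-x.n) x.u = 0
          rw [h1']; simp
        · change 0 < -x.c + β w x.u x.u
          rw [h1']; simpa using h2
      · exact absurd (Γ.ext h h1' h2) hx
      · exact Or.inl (Or.inr ⟨h, Or.inr ⟨h1', h2⟩⟩)
    · exact Or.inl (Or.inr ⟨h, Or.inl h1⟩)
  · exact Or.inl (Or.inl h)

lemma toLex_pos_iff (u : V) : (0 : Lex V) < toLex u ↔ ∃ i, (∀ j < i, u j = 0) ∧ 0 < u i := by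
  constructor
  · rintro ⟨i, h1, h2⟩
    exact ⟨i, fun j hj => (h1 j hj).symm, h2⟩
  · rintro ⟨i, h1, h2⟩
    exact ⟨i, fun j hj => (h1 j hj).symm, h2⟩

lemma τ_pos {u : V} (h : (0 : Lex V) < toLex u) (m : ℤ) : (0 : Lex V) < toLex (τ m u) := by
  rw [toLex_pos_iff] at h ⊢
  obtain ⟨i, h1, h2⟩ := h
  refine ⟨i + m, fun j hj => ?_, ?_⟩
  · rw [τ_apply]
    exact h1 _ (by linarith)
  · rw [τ_apply, add_sub_cancel_right]
    exact h2

lemma Pos.conj {x : Γ w} (hx : Pos x) (g : Γ w) : Pos (g * x * g⁻¹) := by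
  rcases hx with hx | ⟨hx, hx'⟩
  · left
    change 0 < g.n + x.n + -g.n
    linarith
  · right
    refine ⟨by change g.n + x.n + -g.n = 0; rw [hx]; ring, ?_⟩
    have e1 : (g * x * g⁻¹).u = τ (-g.n) x.u := by
      change τ (-g.n) (τ x.n g.u + x.u) + -τ (-g.n) g.u = _
      rw [hx, τ_zero, map_add]
      abel
    rcases hx' with hx' | ⟨hx1, hx2⟩
    · left
      rw [e1]
      exact τ_pos hx' _
    · right
      refine ⟨by rw [e1, hx1, map_zero], ?_⟩
      change 0 < (g.c + x.c + β w (τ x.n g.u) x.u) + (-g.c + β w g.u g.u) +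
        β w (τ (-g.n) (τ x.n g.u + x.u)) (-τ (-g.n) g.u)
      rw [hx1, hx, τ_zero, add_zero, map_neg, β_τ, map_zero]
      linarith

/-- the order given by the cone -/
@[instance_reducible] noncomputable def ord (w : ℤ → ℤ) : LinearOrder (Γ w) where
  le x y := x = y ∨ Pos (y * x⁻¹)
  lt x y := Pos (y * x⁻¹)
  le_refl x := Or.inl rfl
  le_trans x y z := by
    rintro (rfl | h1) (rfl | h2)
    · exact Or.inl rfl
    · exact Or.inr h2
    · exact Or.inr h1
    · right
      have := h2.mul h1
      rwa [mul_assoc, inv_mul_cancel_left] at this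
  lt_iff_le_not_ge x y := by
    constructor
    · intro h
      refine ⟨Or.inr h, ?_⟩
      rintro (rfl | h1)
      · rw [mul_inv_cancel] at h
        exact not_pos_one h
      · have := h.mul h1
        rw [mul_assoc, inv_mul_cancel_left, mul_inv_cancel] at this
        exact not_pos_one this
    · rintro ⟨rfl | h1, h2⟩
      · exact absurd (Or.inl rfl) h2
      · exact h1
  le_antisymm x y := by
    rintro (h | h1) (h' | h2)
    · exact h
    · exact h
    · exact h'.symm
    · have := h1.mul h2
      rw [mul_assoc, inv_mul_cancel_left, mul_inv_cancel] at this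
      exact absurd this not_pos_one
  le_total x y := by
    by_cases h : x = y
    · exact Or.inl (Or.inl h)
    · rcases pos_or (y * x⁻¹) (fun h' => h (mul_inv_eq_one.1 h').symm) with h1 | h1
      · exact Or.inl (Or.inr h1)
      · right; right
        rwa [mul_inv_rev, inv_inv] at h1
  toDecidableLE := Classical.decRel _

lemma biOrderable_Γ (w : ℤ → ℤ) : BiOrderable (Γ w) := by
  refine ⟨ord w, fun x y z h => ⟨?_, ?_⟩⟩
  · rcases h with rfl | h
    · exact Or.inl rfl
    · right
      rwa [mul_inv_rev, mul_assoc, mul_inv_cancel_left]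
  · rcases h with rfl | h
    · exact Or.inl rfl
    · right
      have := h.conj z
      rwa [mul_inv_rev, ← mul_assoc, mul_assoc z y] 

lemma BiOrderable.right {G : Type*} [Group G] (h : BiOrderable G) : RightOrderable G := by
  obtain ⟨r, hr⟩ := h
  exact ⟨r, fun x y z hxy => (hr x y z hxy).1⟩

lemma BiOrderable.sub {G : Type*} [Group G] (h : BiOrderable G) (H : Subgroup G) :
    BiOrderable H := by
  obtain ⟨r, hr⟩ := h
  refine ⟨@LinearOrder.lift' H G r Subtype.val Subtype.val_injective, fun x y z hxy => ?_⟩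
  exact hr x y z hxy

/-- the element `t` -/
noncomputable def T (w : ℤ → ℤ) : Γ w := ⟨1, 0, 0⟩

/-- the element `x_0` -/
noncomputable def X (w : ℤ → ℤ) : Γ w := ⟨0, Finsupp.single 0 1, 0⟩

lemma T_pow (k : ℕ) : (T w) ^ k = ⟨k, 0, 0⟩ := by
  induction k with
  | zero => rfl
  | succ k ih =>
    rw [pow_succ, ih]
    simp [mul_def, T]

lemma conj_X (k : ℕ) : ((T w) ^ k)⁻¹ * X w * (T w) ^ k = ⟨0, Finsupp.single (k : ℤ) 1, 0⟩ := by
  rw [T_pow]
  simp [mul_def, inv_def, X, τ_single]

lemma commute_iff (k : ℕ) :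
    X w * (((T w) ^ k)⁻¹ * X w * (T w) ^ k) = (((T w) ^ k)⁻¹ * X w * (T w) ^ k) * X w ↔
      w k = w (-k) := by
  rw [conj_X]
  simp only [mul_def, X, τ_zero, β_single, Γ.mk.injEq]
  constructor
  · rintro ⟨-, -, h⟩
    simpa using h
  · intro h
    refine ⟨trivial, add_comm _ _, ?_⟩
    simpa using h

/-- the weight belonging to a set of natural numbers -/
noncomputable def wt (S : Set ℕ) : ℤ → ℤ := by
  classical
  exact fun k => if 0 < k ∧ k.toNat ∈ S then 1 else 0

lemma commute_iff' (S : Set ℕ) (k : ℕ) (hk : 0 < k) :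
    X (wt S) * (((T (wt S)) ^ k)⁻¹ * X (wt S) * (T (wt S)) ^ k) =
      (((T (wt S)) ^ k)⁻¹ * X (wt S) * (T (wt S)) ^ k) * X (wt S) ↔ k ∉ S := by
  rw [commute_iff]
  have h1 : wt S (-(k : ℤ)) = 0 := by
    simp [wt]
  rw [h1]
  simp [wt, hk]

instance : Countable (Γ w) := by
  have : Function.Injective (fun x : Γ w => (x.n, x.u, x.c)) := by
    intro x y h
    simp only [Prod.mk.injEq] at h
    exact Γ.ext h.1 h.2.1 h.2.2
  exact this.countable

/-- There is no countable right-orderable group `U` into which every countable right-orderable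
group embeds. Moreover, for every countable group `U` at all there is a two-generator group with a
two-sided invariant total order that does not embed in `U`. -/
theorem result :
    (¬ ∃ (U : Type u) (_ : Group U), Countable U ∧ RightOrderable U ∧
      ∀ (G : Type) (_ : Group G), Countable G → RightOrderable G →
        ∃ f : G →* U, Function.Injective f) ∧
    (∀ (U : Type u) (_ : Group U), Countable U →
      ∃ (G : Type) (_ : Group G), (∃ a b : G, Subgroup.closure {a, b} = ⊤) ∧ BiOrderable G ∧
        ¬ ∃ f : G →* U, Function.Injective f) := by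
  have key : ∀ (U : Type u) (_ : Group U), Countable U →
      ∃ (G : Type) (_ : Group G), (∃ a b : G, Subgroup.closure {a, b} = ⊤) ∧ BiOrderable G ∧
        Countable G ∧ ¬ ∃ f : G →* U, Function.Injective f := by
    intro U _ hU
    by_contra hcon
    have hemb : ∀ S : Set ℕ, ∃ f : (Subgroup.closure {T (wt S), X (wt S)} : Subgroup (Γ (wt S))) →* U,
        Function.Injective f := by
      intro S
      by_contra hS
      refine hcon ⟨(Subgroup.closure {T (wt S), X (wt S)} : Subgroup (Γ (wt S))), inferInstance,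
        ⟨⟨T (wt S), Subgroup.subset_closure (by simp)⟩,
          ⟨X (wt S), Subgroup.subset_closure (by simp)⟩, ?_⟩,
        (biOrderable_Γ _).sub _, inferInstance, hS⟩
      have h := Subgroup.closure_closure_coe_preimage (k := ({T (wt S), X (wt S)} : Set (Γ (wt S))))
      rw [← h]
      congr 1
      ext ⟨y, hy⟩
      simp [Subtype.ext_iff]
    choose f hf using hemb
    let tS : ∀ S : Set ℕ, (Subgroup.closure {T (wt S), X (wt S)} : Subgroup (Γ (wt S))) :=
      fun S => ⟨T (wt S), Subgroup.subset_closure (by simp)⟩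
    let xS : ∀ S : Set ℕ, (Subgroup.closure {T (wt S), X (wt S)} : Subgroup (Γ (wt S))) :=
      fun S => ⟨X (wt S), Subgroup.subset_closure (by simp)⟩
    have hin : ∀ (S : Set ℕ) (k : ℕ), 0 < k →
        (f S (xS S) * ((f S (tS S) ^ k)⁻¹ * f S (xS S) * f S (tS S) ^ k) =
          ((f S (tS S) ^ k)⁻¹ * f S (xS S) * f S (tS S) ^ k) * f S (xS S) ↔ k ∉ S) := by
      intro S k hk
      rw [← commute_iff' S k hk]
      simp only [← map_pow, ← map_inv, ← map_mul]
      rw [(hf S).eq_iff, Subtype.ext_iff]
      rfl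
    have hinj : Function.Injective (fun S : {S : Set ℕ // 0 ∉ S} => (f S.1 (tS S.1), f S.1 (xS S.1))) := by
      rintro ⟨S, hS⟩ ⟨S', hS'⟩ h
      simp only [Prod.mk.injEq] at h
      obtain ⟨h1, h2⟩ := h
      rw [Subtype.mk.injEq]
      ext k
      rcases Nat.eq_zero_or_pos k with rfl | hk
      · exact iff_of_false hS hS'
      · have e1 := hin S k hk
        have e2 := hin S' k hk
        rw [h1, h2] at e1
        exact not_iff_not.1 (e1.symm.trans e2)
    have hc : Countable {S : Set ℕ // 0 ∉ S} := hinj.countable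
    have hc2 : Countable (Set ℕ) := by
      have : Function.Injective (fun S : Set ℕ =>
          (⟨Nat.succ '' S, by simp⟩ : {S : Set ℕ // 0 ∉ S})) := by
        intro S S' h
        simp only [Subtype.mk.injEq] at h
        exact (Set.image_injective.2 Nat.succ_injective) h
      exact this.countable
    obtain ⟨g, hg⟩ := exists_surjective_nat (Set ℕ)
    exact Function.cantor_surjective g hg
  refine ⟨?_, fun U _ hU => ?_⟩
  · rintro ⟨U, _, hU, -, h⟩
    obtain ⟨G, _, -, hb, hc, hne⟩ := key U inferInstance hU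
    exact hne (h G inferInstance hc hb.right)
  · obtain ⟨G, i, h1, h2, -, h3⟩ := key U inferInstance hU
    exact ⟨G, i, h1, h2, h3⟩

end Pool.Agent.Results.MP_49314d_al.NoUniversal
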